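import Pool.Agent.W2helper75.FD.Stm2

/-!
# PIECE TRN of project FD: a symmetric walk with an embedded binary tree has bounded Green function
-/

set_option autoImplicit false
set_option linter.unusedSectionVars false

open MeasureTheory ProbabilityTheory Filter Topology
open scoped ENNReal NNReal

namespace Pool.Agent.W2helper47.FD

open Pool.Agent.W2helper75.FD

variable {X S : Type} [Fintype S] [Nonempty S] (mx : X → S → X) (inv : S → S) (o : X)

/-- the move `s` is a bijection -/
def ev (h1 : ∀ s, inv (inv s) = s) (h2 : ∀ x s, mx (mx x s) (inv s) = x) (s : S) : X ≃ X where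
  toFun x := mx x s
  invFun x := mx x (inv s)
  left_inv x := h2 x s
  right_inv x := by
    have := h2 x (inv s)
    rwa [h1] at this

/-- the Green function up to time `n` -/
noncomputable def gr (n : ℕ) (x : X) : ℝ := ∑ k ∈ Finset.range n, qq mx o k x

lemma qq_nonneg (k : ℕ) (x : X) : 0 ≤ qq mx o k x := by
  induction k generalizing x with
  | zero =>
    unfold qq
    split_ifs <;> norm_num
  | succ k ih =>
    unfold qq
    exact div_nonneg (Finset.sum_nonneg fun s _ => ih _) (Nat.cast_nonneg _)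

lemma gr_nonneg (n : ℕ) (x : X) : 0 ≤ gr mx o n x :=
  Finset.sum_nonneg fun k _ => qq_nonneg mx o k x

lemma qq_fin (h1 : ∀ s, inv (inv s) = s) (h2 : ∀ x s, mx (mx x s) (inv s) = x) (k : ℕ) :
    (Function.support (qq mx o k)).Finite := by
  induction k with
  | zero =>
    refine (Set.finite_singleton o).subset fun x hx => ?_
    by_contra hne
    apply hx
    unfold qq
    exact if_neg hne
  | succ k ih =>
    refine (Set.finite_iUnion fun s : S => ih.preimage
      ((ev mx inv h1 h2 s).injective.injOn)).subset fun x hx => ?_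
    by_contra hne
    apply hx
    unfold qq
    rw [Finset.sum_eq_zero, zero_div]
    intro s _
    by_contra h0
    exact hne (Set.mem_iUnion.mpr ⟨s, h0⟩)

lemma gr_fin (h1 : ∀ s, inv (inv s) = s) (h2 : ∀ x s, mx (mx x s) (inv s) = x) (n : ℕ) :
    (Function.support (gr mx o n)).Finite := by
  refine (Set.Finite.biUnion (Finset.range n).finite_toSet
    fun k _ => qq_fin mx inv o h1 h2 k).subset fun x hx => ?_
  by_contra hne
  apply hx
  unfold gr
  refine Finset.sum_eq_zero fun k hk => ?_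
  by_contra h0
  exact hne (Set.mem_biUnion hk h0)

lemma sm {f : X → ℝ} (g : X → ℝ) (hg : (Function.support g).Finite) (h : ∀ x, g x = 0 → f x = 0) :
    Summable f :=
  summable_of_hasFiniteSupport (hg.subset fun x hx hx0 => hx (h x hx0))

lemma sum_qq (h1 : ∀ s, inv (inv s) = s) (h2 : ∀ x s, mx (mx x s) (inv s) = x) (k : ℕ) :
    ∑' x, qq mx o k x = 1 := by
  induction k with
  | zero =>
    rw [tsum_eq_single o]
    · unfold qq
      exact if_pos rfl
    · intro x hx
      unfold qq
      exact if_neg hx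
  | succ k ih =>
    have hs : Summable (qq mx o k) := sm _ (qq_fin mx inv o h1 h2 k) fun _ h => h
    have hs' : ∀ s : S, Summable fun x => qq mx o k (mx x s) := fun s =>
      (ev mx inv h1 h2 s).summable_iff.mpr hs
    have e : ∀ s : S, ∑' x, qq mx o k (mx x s) = 1 := fun s => by
      rw [← ih]
      exact (ev mx inv h1 h2 s).tsum_eq (qq mx o k)
    have hc : (Fintype.card S : ℝ) ≠ 0 := by
      exact_mod_cast Fintype.card_ne_zero
    have e2 : (fun x => qq mx o (k + 1) x) =
        fun x => (∑ s, qq mx o k (mx x s)) * (Fintype.card S : ℝ)⁻¹ := by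
      funext x
      rw [← div_eq_mul_inv]
      rfl
    rw [e2, tsum_mul_right, Summable.tsum_finsetSum fun s _ => hs' s]
    simp only [e, Finset.sum_const, Finset.card_univ, nsmul_eq_mul, mul_one]
    exact mul_inv_cancel₀ hc

lemma sum_gr (h1 : ∀ s, inv (inv s) = s) (h2 : ∀ x s, mx (mx x s) (inv s) = x) (n : ℕ) :
    ∑' x, gr mx o n x = n := by
  unfold gr
  rw [Summable.tsum_finsetSum fun k _ => sm _ (qq_fin mx inv o h1 h2 k) fun _ h => h]
  simp [sum_qq mx inv o h1 h2]

lemma P_gr (n : ℕ) (x : X) : ∑ s, gr mx o n (mx x s) =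
    (Fintype.card S : ℝ) * (gr mx o n x - qq mx o 0 x + qq mx o n x) := by
  have hc : (Fintype.card S : ℝ) ≠ 0 := by
    exact_mod_cast Fintype.card_ne_zero
  have h1 : ∀ k, ∑ s, qq mx o k (mx x s) = (Fintype.card S : ℝ) * qq mx o (k + 1) x := by
    intro k
    rw [qq, mul_div_cancel₀ _ hc]
  have h2 : gr mx o n x - qq mx o 0 x + qq mx o n x = ∑ k ∈ Finset.range n, qq mx o (k + 1) x := by
    have h3 := Finset.sum_range_succ (fun k => qq mx o k x) n
    have h4 := Finset.sum_range_succ' (fun k => qq mx o k x) n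
    unfold gr
    linarith
  rw [h2, Finset.mul_sum]
  unfold gr
  rw [Finset.sum_comm]
  exact Finset.sum_congr rfl fun k _ => h1 k

/-- the energy -/
noncomputable def en (g : X → ℝ) : ℝ := ∑ s, ∑' x, (g x - g (mx x s)) ^ 2

lemma en_gen (h1 : ∀ s, inv (inv s) = s) (h2 : ∀ x s, mx (mx x s) (inv s) = x) (g : X → ℝ)
    (hf : (Function.support g).Finite) :
    (∀ s, Summable fun x => (g x - g (mx x s)) ^ 2) ∧
    en mx g = 2 * Fintype.card S * ∑' x, g x ^ 2 - 2 * ∑' x, g x * ∑ s, g (mx x s) := by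
  have s1 : Summable fun x => g x ^ 2 := sm g hf fun x h => by simp [h]
  have s2 : ∀ s, Summable fun x => g (mx x s) ^ 2 := fun s =>
    (ev mx inv h1 h2 s).summable_iff.mpr s1
  have s3 : ∀ s, Summable fun x => g x * g (mx x s) := fun s => sm g hf fun x h => by simp [h]
  have e1 : ∀ s, ∑' x, g (mx x s) ^ 2 = ∑' x, g x ^ 2 := fun s =>
    (ev mx inv h1 h2 s).tsum_eq fun x => g x ^ 2
  have e2 : ∀ s, (fun x => (g x - g (mx x s)) ^ 2) =
      fun x => g x ^ 2 + g (mx x s) ^ 2 - 2 * (g x * g (mx x s)) := by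
    intro s
    funext x
    ring
  refine ⟨fun s => ?_, ?_⟩
  · rw [e2 s]
    exact (s1.add (s2 s)).sub ((s3 s).mul_left 2)
  · have e3 : ∀ s, ∑' x, (g x - g (mx x s)) ^ 2 =
        2 * ∑' x, g x ^ 2 - 2 * ∑' x, g x * g (mx x s) := by
      intro s
      rw [e2 s, Summable.tsum_sub (s1.add (s2 s)) ((s3 s).mul_left 2),
        Summable.tsum_add s1 (s2 s), e1 s, tsum_mul_left]
      ring
    have e4 : ∑ s, ∑' x, g x * g (mx x s) = ∑' x, g x * ∑ s, g (mx x s) := by
      rw [← Summable.tsum_finsetSum fun s _ => s3 s]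
      refine tsum_congr fun x => ?_
      rw [← Finset.mul_sum]
    unfold en
    simp only [e3]
    rw [Finset.sum_sub_distrib, ← Finset.mul_sum, ← Finset.mul_sum, e4]
    simp only [Finset.sum_const, Finset.card_univ, nsmul_eq_mul]
    ring

lemma en_le (h1 : ∀ s, inv (inv s) = s) (h2 : ∀ x s, mx (mx x s) (inv s) = x) (n : ℕ) :
    en mx (gr mx o n) ≤ 2 * Fintype.card S * gr mx o n o := by
  have hf := gr_fin mx inv o h1 h2 n
  rw [(en_gen mx inv h1 h2 (gr mx o n) hf).2]
  have s1 : Summable fun x => gr mx o n x ^ 2 := sm _ hf fun x h => by simp [h]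
  have s4 : Summable fun x => gr mx o n x * qq mx o 0 x := sm _ hf fun x h => by simp [h]
  have s5 : Summable fun x => gr mx o n x * qq mx o n x := sm _ hf fun x h => by simp [h]
  have e5 : ∑' x, gr mx o n x * qq mx o 0 x = gr mx o n o := by
    rw [tsum_eq_single o]
    · have : qq mx o 0 o = 1 := if_pos rfl
      rw [this, mul_one]
    · intro x hx
      have : qq mx o 0 x = 0 := if_neg hx
      rw [this, mul_zero]
  have e6 : 0 ≤ ∑' x, gr mx o n x * qq mx o n x := tsum_nonneg fun x =>
    mul_nonneg (gr_nonneg mx o n x) (qq_nonneg mx o n x)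
  have e7 : ∑' x, gr mx o n x * ∑ s, gr mx o n (mx x s) = (Fintype.card S : ℝ) *
      (∑' x, gr mx o n x ^ 2 - ∑' x, gr mx o n x * qq mx o 0 x +
        ∑' x, gr mx o n x * qq mx o n x) := by
    rw [← Summable.tsum_sub s1 s4, ← Summable.tsum_add (s1.sub s4) s5, ← tsum_mul_left]
    refine tsum_congr fun x => ?_
    rw [P_gr]
    ring
  rw [e7, e5]
  have hc : (0 : ℝ) ≤ Fintype.card S := Nat.cast_nonneg _
  have h8 := mul_nonneg hc e6
  linarith

lemma en_nonneg (g : X → ℝ) : 0 ≤ en mx g :=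
  Finset.sum_nonneg fun _ _ => tsum_nonneg fun _ => sq_nonneg _

lemma run_cons (x : X) (s : S) (l : List S) : run mx x (s :: l) = run mx (mx x s) l := rfl

/-- Cauchy-Schwarz along a word -/
lemma word (h1 : ∀ s, inv (inv s) = s) (h2 : ∀ x s, mx (mx x s) (inv s) = x) (g : X → ℝ)
    (hs : ∀ s, Summable fun x => (g x - g (mx x s)) ^ 2) (k : ℕ) (l : List S) :
    ∀ V : Finset X, V.card = 2 ^ k → |∑ x ∈ V, (g x - g (run mx x l))| ≤
      l.length * ((3 / 2) ^ k * √(en mx g)) := by
  classical
  induction l with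
  | nil =>
    intro V _
    simp [run]
  | cons s l ih =>
    intro V hV
    have hinj := (ev mx inv h1 h2 s).injective
    set V' := V.map (ev mx inv h1 h2 s).toEmbedding with hV'
    have h3 := ih V' (by rw [hV', Finset.card_map, hV])
    rw [hV', Finset.sum_map] at h3
    have h4 : (∑ x ∈ V, (g x - g (mx x s))) ^ 2 ≤ ((3 / 2) ^ k * √(en mx g)) ^ 2 := by
      refine (sq_sum_le_card_mul_sum_sq).trans ?_
      rw [hV, mul_pow, Real.sq_sqrt (en_nonneg mx g)]
      have h5 : ∑ x ∈ V, (g x - g (mx x s)) ^ 2 ≤ en mx g := by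
        refine ((hs s).sum_le_tsum V fun x _ => sq_nonneg _).trans ?_
        exact Finset.single_le_sum (f := fun s => ∑' x, (g x - g (mx x s)) ^ 2)
          (fun s _ => tsum_nonneg fun x => sq_nonneg _) (Finset.mem_univ s)
      have h6 : (((2 ^ k : ℕ) : ℝ)) ≤ ((3 / 2) ^ k) ^ 2 := by
        push_cast
        rw [← pow_mul, mul_comm k 2, pow_mul]
        exact pow_le_pow_left₀ (by norm_num) (by norm_num) k
      exact mul_le_mul h6 h5 (Finset.sum_nonneg fun x _ => sq_nonneg _) (by positivity)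
    have h7 : |∑ x ∈ V, (g x - g (mx x s))| ≤ (3 / 2) ^ k * √(en mx g) :=
      abs_le_of_sq_le_sq h4 (by positivity)
    have h8 : ∑ x ∈ V, (g x - g (run mx x (s :: l))) = ∑ x ∈ V, (g x - g (mx x s)) +
        ∑ x ∈ V, (g (mx x s) - g (run mx (mx x s) l)) := by
      rw [← Finset.sum_add_distrib]
      refine Finset.sum_congr rfl fun x _ => ?_
      rw [run_cons]
      ring
    rw [h8]
    refine (abs_add_le _ _).trans ?_
    rw [List.length_cons]
    push_cast
    have h9 : |∑ x ∈ V, (g (mx x s) - g (run mx (mx x s) l))| ≤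
        l.length * ((3 / 2) ^ k * √(en mx g)) := h3
    linarith

/-- the lists of length `k` -/
def LL : ℕ → Finset (List Bool)
  | 0 => {[]}
  | k + 1 => (LL k).map ⟨List.cons false, List.cons_injective⟩ ∪
      (LL k).map ⟨List.cons true, List.cons_injective⟩

lemma LL_len (k : ℕ) : ∀ u ∈ LL k, u.length = k := by
  induction k with
  | zero =>
    intro u hu
    simp only [LL, Finset.mem_singleton] at hu
    simp [hu]
  | succ k ih =>
    intro u hu
    simp only [LL, Finset.mem_union, Finset.mem_map, Function.Embedding.coeFn_mk] at hu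
    rcases hu with ⟨a, ha, rfl⟩ | ⟨a, ha, rfl⟩
    · simp [ih a ha]
    · simp [ih a ha]

lemma LL_disj (k : ℕ) : Disjoint ((LL k).map ⟨List.cons false, List.cons_injective⟩)
    ((LL k).map ⟨List.cons true, List.cons_injective⟩) := by
  rw [Finset.disjoint_left]
  intro u h1 h2
  simp only [Finset.mem_map, Function.Embedding.coeFn_mk] at h1 h2
  obtain ⟨a, _, rfl⟩ := h1
  obtain ⟨b, _, hb⟩ := h2
  simp at hb

lemma LL_card (k : ℕ) : (LL k).card = 2 ^ k := by
  induction k with
  | zero => simp [LL]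
  | succ k ih =>
    rw [LL, Finset.card_union_of_disjoint (LL_disj k), Finset.card_map, Finset.card_map, ih]
    ring

/-- the average over generation `k` -/
noncomputable def av (w : Bool → List S) (g : X → ℝ) (k : ℕ) : ℝ :=
  (1 / 2) ^ k * ∑ u ∈ LL k, g (vtx mx o w u)

lemma av_step (h1 : ∀ s, inv (inv s) = s) (h2 : ∀ x s, mx (mx x s) (inv s) = x) (g : X → ℝ)
    (hs : ∀ s, Summable fun x => (g x - g (mx x s)) ^ 2) (w : Bool → List S)
    (hw : ∀ u u' : List Bool, u.length = u'.length → vtx mx o w u = vtx mx o w u' → u = u')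
    (k : ℕ) : av mx o w g k - av mx o w g (k + 1) ≤
      ((w false).length + (w true).length) / 2 * ((3 / 4) ^ k * √(en mx g)) := by
  classical
  set V := (LL k).image (vtx mx o w) with hV
  have hinj : Set.InjOn (vtx mx o w) (LL k) := fun u hu u' hu' h =>
    hw u u' ((LL_len k u hu).trans (LL_len k u' hu').symm) h
  have hVc : V.card = 2 ^ k := by
    rw [hV, Finset.card_image_of_injOn hinj, LL_card]
  have e1 : ∑ u ∈ LL (k + 1), g (vtx mx o w u) =
      ∑ u ∈ LL k, g (run mx (vtx mx o w u) (w false)) +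
        ∑ u ∈ LL k, g (run mx (vtx mx o w u) (w true)) := by
    rw [LL, Finset.sum_union (LL_disj k), Finset.sum_map, Finset.sum_map]
    rfl
  have e2 : ∀ a, ∑ u ∈ LL k, (g (vtx mx o w u) - g (run mx (vtx mx o w u) (w a))) =
      ∑ x ∈ V, (g x - g (run mx x (w a))) := by
    intro a
    rw [hV, Finset.sum_image hinj]
  have h3 := word mx inv h1 h2 g hs k (w false) V hVc
  have h4 := word mx inv h1 h2 g hs k (w true) V hVc
  have h5 := le_of_abs_le h3
  have h6 := le_of_abs_le h4
  have e3 : av mx o w g k - av mx o w g (k + 1) = (1 / 2) ^ (k + 1) *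
      (∑ x ∈ V, (g x - g (run mx x (w false))) + ∑ x ∈ V, (g x - g (run mx x (w true)))) := by
    rw [← e2, ← e2, av, av, e1, Finset.sum_sub_distrib, Finset.sum_sub_distrib]
    ring
  rw [e3]
  have h7 : (1 / 2 : ℝ) ^ (k + 1) *
      (∑ x ∈ V, (g x - g (run mx x (w false))) + ∑ x ∈ V, (g x - g (run mx x (w true)))) ≤
      (1 / 2 : ℝ) ^ (k + 1) * ((w false).length * ((3 / 2) ^ k * √(en mx g)) +
        (w true).length * ((3 / 2) ^ k * √(en mx g))) :=
    mul_le_mul_of_nonneg_left (by linarith) (by positivity)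
  refine h7.trans (le_of_eq ?_)
  have e4 : (3 / 4 : ℝ) ^ k = (1 / 2) ^ k * (3 / 2) ^ k := by
    rw [← mul_pow]
    norm_num
  rw [e4]
  ring

/-- TRN -/
theorem trn : P_TRN := by
  classical
  intro X S _ _ mx inv h1 h2 o w hw
  set L : ℝ := (w false).length + (w true).length with hL
  have hL0 : 0 ≤ L := by positivity
  refine ⟨8 * L ^ 2 * Fintype.card S, fun n => ?_⟩
  set g := gr mx o n with hg
  have hs := (en_gen mx inv h1 h2 g (gr_fin mx inv o h1 h2 n)).1
  have hD : en mx g ≤ 2 * Fintype.card S * g o := en_le mx inv o h1 h2 n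
  have hg0 : ∀ x, 0 ≤ g x := gr_nonneg mx o n
  have hgs : Summable g := sm g (gr_fin mx inv o h1 h2 n) fun _ h => h
  -- telescoping
  have ht : ∀ K : ℕ, av mx o w g 0 - av mx o w g K ≤ 2 * L * √(en mx g) := by
    intro K
    have e1 : av mx o w g 0 - av mx o w g K =
        ∑ k ∈ Finset.range K, (av mx o w g k - av mx o w g (k + 1)) :=
      (Finset.sum_range_sub' _ K).symm
    rw [e1]
    refine (Finset.sum_le_sum fun k _ => av_step mx inv o h1 h2 g hs w hw k).trans ?_
    rw [← Finset.mul_sum, ← Finset.sum_mul]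
    have h3 : ∑ k ∈ Finset.range K, (3 / 4 : ℝ) ^ k ≤ 4 := by
      have h4 := geom_sum_eq (x := (3 / 4 : ℝ)) (by norm_num) K
      rw [h4]
      have h5 : (0 : ℝ) ≤ (3 / 4) ^ K := by positivity
      rw [div_le_iff_of_neg (by norm_num)]
      linarith
    have h4 : (∑ k ∈ Finset.range K, (3 / 4 : ℝ) ^ k) * √(en mx g) ≤ 4 * √(en mx g) :=
      mul_le_mul_of_nonneg_right h3 (Real.sqrt_nonneg _)
    calc L / 2 * ((∑ k ∈ Finset.range K, (3 / 4 : ℝ) ^ k) * √(en mx g)) ≤
        L / 2 * (4 * √(en mx g)) := mul_le_mul_of_nonneg_left h4 (by positivity)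
      _ = 2 * L * √(en mx g) := by ring
  have ha : ∀ K : ℕ, av mx o w g K ≤ (1 / 2) ^ K * n := by
    intro K
    unfold av
    refine mul_le_mul_of_nonneg_left ?_ (by positivity)
    have hinj : Set.InjOn (vtx mx o w) (LL K) := fun u hu u' hu' h =>
      hw u u' ((LL_len K u hu).trans (LL_len K u' hu').symm) h
    rw [← Finset.sum_image (f := g) hinj, ← sum_gr mx inv o h1 h2 n]
    exact hgs.sum_le_tsum _ fun x _ => hg0 x
  have h0 : av mx o w g 0 = g o := by
    simp [av, LL, vtx]
  have hlim : g o ≤ 2 * L * √(en mx g) := by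
    have h3 : Tendsto (fun K : ℕ => 2 * L * √(en mx g) + (1 / 2 : ℝ) ^ K * n) atTop
        (𝓝 (2 * L * √(en mx g) + 0 * n)) :=
      tendsto_const_nhds.add ((tendsto_pow_atTop_nhds_zero_of_lt_one (by norm_num)
        (by norm_num)).mul_const _)
    rw [zero_mul, add_zero] at h3
    refine ge_of_tendsto' h3 fun K => ?_
    have := ht K
    have := ha K
    rw [h0] at *
    linarith
  have hgo : 0 ≤ g o := hg0 o
  have h5 : √(en mx g) ^ 2 ≤ 2 * Fintype.card S * g o := by
    rw [Real.sq_sqrt (en_nonneg mx g)]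
    exact hD
  have h6 : g o ^ 2 ≤ 8 * L ^ 2 * Fintype.card S * g o := by
    calc g o ^ 2 ≤ (2 * L * √(en mx g)) ^ 2 := pow_le_pow_left₀ hgo hlim 2
      _ = 4 * L ^ 2 * √(en mx g) ^ 2 := by ring
      _ ≤ 4 * L ^ 2 * (2 * Fintype.card S * g o) :=
        mul_le_mul_of_nonneg_left h5 (by positivity)
      _ = 8 * L ^ 2 * Fintype.card S * g o := by ring
  change g o ≤ _
  rcases hgo.eq_or_lt with h | h
  · rw [← h]
    positivity
  · rw [sq] at h6
    exact le_of_mul_le_mul_right h6 h

end Pool.Agent.W2helper47.FD
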